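import Pool.Agent.Q122.Gon.TreeFinal

set_option autoImplicit false

/-!
# MP_806935_co: the best constant between graph and metric graph gonality is 2

For every finite connected loopless multigraph `G`, `dgon(G) ≤ 2 dgon(Γ(G))`, and the constant `2`
cannot be lowered: it is the least real number `c` with `dgon(G) ≤ c dgon(Γ(G))` for all `G`.
-/

namespace Pool.Agent.Results.MP_806935_co.ExactConstant

open Q122.Gon

theorem result : IsLeast {c : ℝ | ∀ (V E : Type) [Fintype V] [Fintype E] [DecidableEq V]
    [DecidableEq E] (G : MGraph V E), G.Connected → (G.dgon : ℝ) ≤ c * (G.mdgon : ℝ)} 2 := by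
  constructor
  · intro V E _ _ _ _ G hG
    exact_mod_cast G.dgon_le hG
  · intro c hc
    by_contra hcon
    push Not at hcon
    obtain ⟨V, E, i1, i2, i3, i4, G, hG, hlt⟩ := Tree.ratio (max c 0) (le_max_right _ _)
      (max_lt hcon two_pos)
    have h1 : (G.dgon : ℝ) ≤ c * (G.mdgon : ℝ) := hc V E G hG
    have h2 : c * (G.mdgon : ℝ) ≤ max c 0 * (G.mdgon : ℝ) :=
      mul_le_mul_of_nonneg_right (le_max_left _ _) (by positivity)
    linarith

end Pool.Agent.Results.MP_806935_co.ExactConstant
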